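import Pool.Agent.X33.HR.Geo

set_option autoImplicit false

/-!
The identity map carries the labels of the top simplex an odd number of times, and there is no
retraction in even codimension one.
-/

namespace Pool.Agent.X33.HR

open Finset Pool.Agent.Helper475.Kuhn

/-- a strictly decreasing self-map of `{0, ..., k}` is the reflection -/
theorem refl_of_strictAnti (k : ℕ) (f : ℕ → ℕ) (h : ∀ c d, c < d → d ≤ k → f d < f c)
    (hf : ∀ c ≤ k, f c ≤ k) (c : ℕ) (hc : c ≤ k) : f c = k - c := by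
  have h1 : ∀ c, c ≤ k → f c + c ≤ k := by
    intro c
    induction c with
    | zero => intro _; simpa using hf 0 (by omega)
    | succ c ih =>
      intro hc
      have := h c (c + 1) (by omega) hc
      have := ih (by omega)
      omega
  have h2 : ∀ d, d ≤ k → d ≤ f (k - d) := by
    intro d
    induction d with
    | zero => intro _; omega
    | succ d ih =>
      intro hd
      have := h (k - (d + 1)) (k - d) (by omega) (by omega)
      have := ih (by omega)
      omega
  have h3 := h1 c hc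
  have h4 := h2 (k - c) (by omega)
  rw [show k - (k - c) = c by omega] at h4
  omega

/-- the points `z_0, ..., z_K, 0` -/
noncomputable def zt (m K : ℕ) (u : ℕ → ℕ) (j : ℕ) : ℝ := if j ≤ K then z m u j else 0

theorem zt_anti (m K : ℕ) (u : ℕ → ℕ) : Antitone (zt m K u) := by
  intro i j hij
  unfold zt
  by_cases hj : j ≤ K
  · rw [if_pos hj, if_pos (hij.trans hj)]
    exact z_anti m u hij
  · rw [if_neg hj]
    split_ifs
    · exact z_nonneg _ _ _
    · exact le_rfl

theorem mem_A' {m K : ℕ} {u : ℕ → ℕ} {t : ℝ} :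
    t ∈ A m K u ↔ ∃ j, j ≤ K + 1 ∧ zt m K u j = t := by
  rw [mem_A]
  constructor
  · rintro (rfl | ⟨j, hj, rfl⟩)
    · exact ⟨K + 1, le_rfl, by simp [zt]⟩
    · exact ⟨j, by omega, by simp [zt, hj]⟩
  · rintro ⟨j, hj, rfl⟩
    by_cases h : j ≤ K
    · exact Or.inr ⟨j, h, by simp [zt, h]⟩
    · left; simp [zt, h]

theorem near_zt {m K : ℕ} {u : ℕ → ℕ} (h : Near (K + 1) (A m K u)) (c : ℕ) (hc : c ≤ K + 1) :
    |zt m K u (K + 1 - c) - c / (K + 1 : ℕ)| < 1 / (8 * (K + 1 : ℕ)) := by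
  have hk' : (0 : ℝ) < (K + 1 : ℕ) := by positivity
  set k : ℕ := K + 1 with hk
  have h1 : ∀ c : ℕ, c ≤ k → ∃ j, j ≤ k ∧ |zt m K u j - c / k| < 1 / (8 * k) := by
    intro c hc
    obtain ⟨t, ht, ht'⟩ := h c hc
    obtain ⟨j, hj, rfl⟩ := mem_A'.1 ht
    exact ⟨j, hj, ht'⟩
  choose! f hf1 hf2 using h1
  have hr4 : (1 : ℝ) / k = 8 * (1 / (8 * k)) := by field_simp
  have hrpos : (0 : ℝ) < 1 / (8 * k) := by positivity
  have hanti : ∀ c d, c < d → d ≤ k → f d < f c := by
    intro c d hcd hd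
    by_contra hle
    have h2 := zt_anti m K u (not_lt.1 hle)
    have h3 := hf2 c (by omega)
    have h4 := hf2 d hd
    rw [abs_lt] at h3 h4
    have h5 : (c : ℝ) / k + 1 / k ≤ d / k := by
      rw [← add_div]
      apply div_le_div_of_nonneg_right _ hk'.le
      exact_mod_cast hcd
    linarith [h3.1, h3.2, h4.1, h4.2]
  have e := refl_of_strictAnti k f hanti hf1 c hc
  rw [← e]
  exact hf2 c hc

/-- the cubical label -/
noncomputable def lam' (m K : ℕ) (u : ℕ → ℕ) : ℕ :=
  sInf {j | K ≤ j ∨ z m u (j + 1) ≤ ((K - j : ℕ) : ℝ) / (K + 1 : ℕ)}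

theorem lam'_mem (m K : ℕ) (u : ℕ → ℕ) :
    K ≤ lam' m K u ∨ z m u (lam' m K u + 1) ≤ ((K - lam' m K u : ℕ) : ℝ) / (K + 1 : ℕ) :=
  Nat.sInf_mem (s := {j | K ≤ j ∨ z m u (j + 1) ≤ ((K - j : ℕ) : ℝ) / (K + 1 : ℕ)})
    ⟨K, Or.inl le_rfl⟩

theorem lam'_le (m K : ℕ) (u : ℕ → ℕ) : lam' m K u ≤ K :=
  Nat.sInf_le (s := {j | K ≤ j ∨ z m u (j + 1) ≤ ((K - j : ℕ) : ℝ) / (K + 1 : ℕ)})
    (Or.inl le_rfl)

theorem lam'_lt {m K : ℕ} {u : ℕ → ℕ} {j : ℕ} (h : j < lam' m K u) :
    j < K ∧ ((K - j : ℕ) : ℝ) / (K + 1 : ℕ) < z m u (j + 1) := by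
  have h1 := Nat.notMem_of_lt_sInf
    (s := {j | K ≤ j ∨ z m u (j + 1) ≤ ((K - j : ℕ) : ℝ) / (K + 1 : ℕ)}) h
  have h2 : ¬ (K ≤ j ∨ z m u (j + 1) ≤ ((K - j : ℕ) : ℝ) / (K + 1 : ℕ)) := h1
  push Not at h2
  exact ⟨h2.1, h2.2⟩

theorem lam'_h2 (m K i : ℕ) (hi : i < K) (u : ℕ → ℕ) (hu : u i = 0) : lam' m K u ≠ i := by
  intro h
  have hk' : (0 : ℝ) < (K + 1 : ℕ) := by positivity
  have h1 := lam'_mem m K u
  rw [h] at h1
  rcases h1 with h1 | h1
  · omega
  rw [z_succ, w_zero hu, mul_one] at h1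
  rcases Nat.eq_zero_or_pos i with rfl | hi0
  · rw [z_zero, le_div_iff₀ hk', one_mul] at h1
    have : K + 1 ≤ K - 0 := by exact_mod_cast h1
    omega
  · obtain ⟨i', rfl⟩ : ∃ i', i = i' + 1 := ⟨i - 1, by omega⟩
    have h2 := (lam'_lt (m := m) (K := K) (u := u) (j := i') (by omega)).2
    have h3 := h2.trans_le h1
    rw [div_lt_div_iff_of_pos_right hk'] at h3
    have : K - i' < K - (i' + 1) := by exact_mod_cast h3
    omega

theorem lam'_h3 {m : ℕ} (hm : 0 < m) (K i : ℕ) (u : ℕ → ℕ) (hu : u i = m) :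
    lam' m K u ≤ i := by
  refine Nat.sInf_le (s := {j | K ≤ j ∨ z m u (j + 1) ≤ ((K - j : ℕ) : ℝ) / (K + 1 : ℕ)}) ?_
  right
  rw [z_succ, w_top hm hu, mul_zero]
  positivity

/-- The labels agree where the set is near the standard set. -/
theorem lab_eq {m K : ℕ} {u : ℕ → ℕ} (h : Near (K + 1) (A m K u)) :
    lab K (A m K u) = lam' m K u := by
  have hk' : (0 : ℝ) < (K + 1 : ℕ) := by positivity
  have hr4 : (1 : ℝ) / (K + 1 : ℕ) = 8 * (1 / (8 * (K + 1 : ℕ))) := by field_simp
  have hrpos : (0 : ℝ) < 1 / (8 * (K + 1 : ℕ)) := by positivity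
  obtain ⟨h1, h2, h3⟩ := lab_near h (zero_mem_A m K u)
  have key : ∀ j < K, D (K + 1) (K - j) (A m K u) ↔
      z m u (j + 1) ≤ ((K - j : ℕ) : ℝ) / (K + 1 : ℕ) := by
    intro j hj
    have hz := near_zt h (K - j) (by omega)
    rw [show K + 1 - (K - j) = j + 1 by omega] at hz
    have ez : zt m K u (j + 1) = z m u (j + 1) := by
      unfold zt; rw [if_pos (by omega)]
    constructor
    · rintro ⟨t, ht, ht1, ht2⟩
      obtain ⟨i, hi, rfl⟩ := mem_A'.1 ht
      have hz' := near_zt h (K + 1 - i) (by omega)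
      rw [show K + 1 - (K + 1 - i) = i by omega] at hz'
      have e := grid_eq (k := K + 1) (by omega) hz' ht1 (by linarith)
      have e2 : i = j + 1 := by omega
      rw [← ez, ← e2]
      exact ht2
    · intro hle
      exact ⟨zt m K u (j + 1), mem_A'.2 ⟨j + 1, by omega, rfl⟩, hz, by rw [ez]; exact hle⟩
  apply le_antisymm
  · by_contra hlt
    push Not at hlt
    have h4 := h3 _ hlt
    have h5 : lam' m K u < K := by omega
    rw [key _ h5] at h4
    rcases lam'_mem m K u with h6 | h6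
    · omega
    · exact h4 h6
  · by_contra hlt
    push Not at hlt
    obtain ⟨h4, h5⟩ := lam'_lt hlt
    rw [key _ h4] at h2
    linarith

/-- If a small simplex carries all the cubical labels then all its sets are near. -/
theorem near_of_full {m K : ℕ} {δ : ℝ} (hδ : δ < 1 / (8 * (K + 1 : ℕ))) (l : List (ℕ → ℕ))
    (hl : ∀ u ∈ l, ∀ v ∈ l, ∀ j ≤ K, |z m u j - z m v j| ≤ δ)
    (hfull : ∀ a ≤ K, ∃ v ∈ l, lam' m K v = a) (v : ℕ → ℕ) (hv : v ∈ l) :
    Near (K + 1) (A m K v) := by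
  have hk' : (0 : ℝ) < (K + 1 : ℕ) := by positivity
  have hrpos : (0 : ℝ) < 1 / (8 * (K + 1 : ℕ)) := by positivity
  intro c hc
  rcases Nat.eq_zero_or_pos c with rfl | hc0
  · exact ⟨0, zero_mem_A _ _ _, by simp; positivity⟩
  rcases Nat.lt_or_ge c (K + 1) with hck | hck
  swap
  · have : c = K + 1 := by omega
    subst this
    exact ⟨1, one_mem_A _ _ _, by rw [div_self hk'.ne']; simpa using hk'⟩
  -- `c = K - j` with `j < K`, compare `z (j + 1)`
  obtain ⟨j, hj, rfl⟩ : ∃ j, j < K ∧ c = K - j := ⟨K - c, by omega, by omega⟩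
  obtain ⟨x, hx, hx'⟩ := hfull K le_rfl
  obtain ⟨y, hy, hy'⟩ := hfull j (by omega)
  have h1 := (lam'_lt (m := m) (K := K) (u := x) (j := j) (by omega)).2
  have h2 : z m y (j + 1) ≤ ((K - j : ℕ) : ℝ) / (K + 1 : ℕ) := by
    have := lam'_mem m K y
    rw [hy'] at this
    rcases this with h | h
    · omega
    · exact h
  have h3 := hl x hx v hv (j + 1) (by omega)
  have h4 := hl y hy v hv (j + 1) (by omega)
  rw [abs_le] at h3 h4
  refine ⟨z m v (j + 1), mem_A.2 (Or.inr ⟨j + 1, by omega, rfl⟩), ?_⟩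
  rw [abs_lt]
  constructor <;> linarith [h3.1, h3.2, h4.1, h4.2]

theorem ind_eq_zero {R : Multiset ℕ} {L : List ℕ} (h : (L : Multiset ℕ) ≠ R) : ind R L = 0 := by
  simp [ind, h]

theorem mem_of_ind {R : Multiset ℕ} {L : List ℕ} (h : ind R L ≠ 0) : (L : Multiset ℕ) = R := by
  by_contra h1
  exact h (ind_eq_zero h1)

/-- the count for the identity map -/
theorem count_id {m : ℕ} (hm : 0 < m) (K : ℕ) {δ : ℝ} (hδ : δ < 1 / (8 * (K + 1 : ℕ)))
    (hmδ : (K : ℝ) / m ≤ δ) :
    grid m (fun _ => 0) K (fun l => ind (Multiset.range (K + 1))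
      (l.map (fun u => lab K (A m K u)))) = 1 := by
  have hm' : (0 : ℝ) < m := by exact_mod_cast hm
  have h1 := kuhn_parity m (fun _ => 0) K (lam' m K) (lam'_le m K)
    (fun i hi x hx => lam'_h2 m K i hi x hx) (fun i _ x hx => lam'_h3 hm K i x hx)
  rw [← h1]
  by_contra hne
  have h2 : grid m (fun _ => 0) K (fun l => ind (Multiset.range (K + 1))
      (l.map (fun u => lab K (A m K u))) + ind (Multiset.range (K + 1)) (l.map (lam' m K))) ≠ 0 := by
    rw [grid_add]
    intro h2
    apply hne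
    have h3 := two_eq (grid m (fun _ => 0) K (fun l => ind (Multiset.range (K + 1))
      (l.map (lam' m K))))
    linear_combination h2 - h3
  obtain ⟨l, h3, x, hx, h4⟩ := grid_supp m _ K _ h2
  apply h3
  have hnb : ∀ u ∈ l, ∀ v ∈ l, Nb u v := by
    intro u hu v hv i
    obtain ⟨a1, a2⟩ := h4 u hu
    obtain ⟨b1, b2⟩ := h4 v hv
    by_cases hi : i < K
    · rcases a1 i hi with e | e <;> rcases b1 i hi with e' | e' <;> omega
    · rw [a2 i (by omega), b2 i (by omega)]; omega
  have hl : ∀ u ∈ l, ∀ v ∈ l, ∀ j ≤ K, |z m u j - z m v j| ≤ δ := by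
    intro u hu v hv j hj
    refine (z_close hm (hnb u hu v hv) j).trans (le_trans ?_ hmδ)
    apply div_le_div_of_nonneg_right _ hm'.le
    exact_mod_cast hj
  by_cases hN : ∀ v ∈ l, Near (K + 1) (A m K v)
  · have e : l.map (fun u => lab K (A m K u)) = l.map (lam' m K) := by
      apply List.map_congr_left
      intro v hv
      exact lab_eq (hN v hv)
    rw [e]
    exact two_eq _
  · have e1 : ind (Multiset.range (K + 1)) (l.map (fun u => lab K (A m K u))) = 0 := by
      push Not at hN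
      obtain ⟨v, hv, hv'⟩ := hN
      apply ind_eq_zero
      intro e
      have : lab K (A m K v) ∈ Multiset.range (K + 1) := by
        rw [← e, Multiset.mem_coe, List.mem_map]
        exact ⟨v, hv, rfl⟩
      rw [lab_not hv', Multiset.mem_range] at this
      omega
    have e2 : ind (Multiset.range (K + 1)) (l.map (lam' m K)) = 0 := by
      apply ind_eq_zero
      intro e
      apply hN
      intro v hv
      refine near_of_full hδ l hl ?_ v hv
      intro a ha
      have : a ∈ ((l.map (lam' m K) : List ℕ) : Multiset ℕ) := by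
        rw [e, Multiset.mem_range]; omega
      rw [Multiset.mem_coe, List.mem_map] at this
      obtain ⟨v, hv, hva⟩ := this
      exact ⟨v, hv, hva⟩
    rw [e1, e2, add_zero]

/-- **No retraction.** -/
theorem no_retraction {m : ℕ} (hm : 0 < m) (K : ℕ) (hK : Odd K) {δ : ℝ}
    (hδ : δ ≤ 1 / (32 * (K + 1 : ℕ))) (hmδ : (K : ℝ) / m ≤ δ) (R : Finset ℝ → Finset ℝ)
    (hid : ∀ s : Finset ℝ, s.card ≤ K + 2 → (0 : ℝ) ∈ s → (1 : ℝ) ∈ s →
      (∀ t ∈ s, 0 ≤ t ∧ t ≤ 1) → R s = s)
    (hcard : ∀ u, (R (A m (K + 1) u)).card ≤ K + 2)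
    (h0 : ∀ u, (0 : ℝ) ∈ R (A m (K + 1) u)) (h1 : ∀ u, (1 : ℝ) ∈ R (A m (K + 1) u))
    (hcl : ∀ u v, Nb u v → Cl δ (R (A m (K + 1) u)) (R (A m (K + 1) v))) : False := by
  classical
  have hk' : (0 : ℝ) < (K + 1 : ℕ) := by positivity
  have hδ' : δ < 1 / (8 * (K + 1 : ℕ)) := by
    refine lt_of_le_of_lt hδ ?_
    apply one_div_lt_one_div_of_lt (by positivity)
    linarith
  set Λ : (ℕ → ℕ) → ℕ := fun u => lab K (R (A m (K + 1) u)) with hΛ
  set Ψ : List (ℕ → ℕ) → ZMod 2 := fun l => ind (Multiset.range (K + 1)) (l.map Λ) with hΨ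
  have hst := stokes m K Ψ
  -- the interior count vanishes
  have hint : grid m (fun _ => 0) (K + 1) (fun l => del l Ψ) = 0 := by
    by_contra hne
    obtain ⟨l, h3, x, hx, h4⟩ := grid_supp m _ (K + 1) _ hne
    have hnb : ∀ u ∈ l, ∀ v ∈ l, Nb u v := by
      intro u hu v hv i
      obtain ⟨a1, a2⟩ := h4 u hu
      obtain ⟨b1, b2⟩ := h4 v hv
      by_cases hi : i < K + 1
      · rcases a1 i hi with e | e <;> rcases b1 i hi with e' | e' <;> omega
      · rw [a2 i (by omega), b2 i (by omega)]; omega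
    rw [hΨ, ← del_map Λ l (ind (Multiset.range (K + 1))), del_ind_range] at h3
    · have e := mem_of_ind h3
      have hfull : ∀ a, a ≤ K + 1 → ∃ v ∈ l, Λ v = a := by
        intro a ha
        have : a ∈ ((l.map Λ : List ℕ) : Multiset ℕ) := by
          rw [e, Multiset.mem_range]; omega
        rw [Multiset.mem_coe, List.mem_map] at this
        obtain ⟨v, hv, hva⟩ := this
        exact ⟨v, hv, hva⟩
      choose! g hg1 hg2 using hfull
      exact no_full hδ (fun a => R (A m (K + 1) (g a))) (fun a _ => hcard _) (fun a _ => h0 _)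
        (fun a _ => h1 _) (fun a ha b hb => hcl _ _ (hnb _ (hg1 a ha) _ (hg1 b hb)))
        (fun a ha => hg2 a ha)
    · intro a ha
      obtain ⟨v, -, rfl⟩ := List.mem_map.1 ha
      exact lab_le (h0 v)
  rw [hint] at hst
  -- the facets
  have hone := count_id hm K hδ' hmδ
  have hRA : ∀ u, R (A m K u) = A m K u := fun u =>
    hid _ (card_A_le m K u) (zero_mem_A _ _ _) (one_mem_A _ _ _) (fun t ht => A_Icc ht)
  have face0 : ∀ i ∈ range (K + 1),
      grid m (fun _ => 0) K (fun l => Ψ (l.map (ins i 0))) = 1 := by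
    intro i hi
    rw [mem_range] at hi
    rw [← hone]
    congr 1
    funext l
    rw [hΨ]
    simp only [List.map_map]
    congr 1
    apply List.map_congr_left
    intro v _
    simp only [Function.comp, hΛ]
    rw [A_ins0 m K i (by omega), hRA]
  have faceTop : grid m (fun _ => 0) K (fun l => Ψ (l.map (ins K m))) = 1 := by
    rw [← hone]
    congr 1
    funext l
    rw [hΨ]
    simp only [List.map_map]
    congr 1
    apply List.map_congr_left
    intro v _
    simp only [Function.comp, hΛ]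
    rw [A_insTop hm, hRA]
  have faceDeg : ∀ i ∈ range K, grid m (fun _ => 0) K (fun l => Ψ (l.map (ins i m))) = 0 := by
    intro i hi
    rw [mem_range] at hi
    apply grid_zero
    intro l
    rw [hΨ]
    simp only [List.map_map]
    apply ind_eq_zero
    have hlab : ∀ v, (Λ ∘ ins i m) v = K + 1 := by
      intro v
      simp only [Function.comp, hΛ]
      have hc := card_A_insTop hm K i hi v
      rw [hid _ (by omega) (zero_mem_A _ _ _) (one_mem_A _ _ _) (fun t ht => A_Icc ht)]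
      apply lab_not
      intro hN
      have := near_card (by omega) hN
      omega
    intro e
    rcases l with _ | ⟨v, l⟩
    · have : (0 : ℕ) ∈ Multiset.range (K + 1) := by rw [Multiset.mem_range]; omega
      rw [← e] at this
      simp at this
    · have : (Λ ∘ ins i m) v ∈ Multiset.range (K + 1) := by
        rw [← e]; simp
      rw [hlab, Multiset.mem_range] at this
      omega
  rw [sum_add_distrib, sum_congr rfl face0, sum_range_succ, sum_congr rfl faceDeg, faceTop] at hst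
  simp only [sum_const_zero, sum_const, card_range, zero_add, nsmul_eq_mul, mul_one] at hst
  obtain ⟨r, hr⟩ := hK
  rw [hr] at hst
  push_cast at hst
  have h2 : (2 : ZMod 2) = 0 := by decide
  have : (0 : ZMod 2) = 1 := by
    linear_combination hst + (r + 1 : ZMod 2) * h2
  exact absurd this (by decide)

end Pool.Agent.X33.HR
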