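import Pool.Agent.X33.HR.Stokes

set_option autoImplicit false

/-!
Subsets of `[0,1]` with `k + 2` points parametrised by a cube, and labels of finite subsets.
-/

namespace Pool.Agent.X33.HR

open Finset

/-- factor -/
noncomputable def w (m : ℕ) (u : ℕ → ℕ) (i : ℕ) : ℝ := 1 - ((min (u i) m : ℕ) : ℝ) / m

/-- product of the first `j` factors -/
noncomputable def z (m : ℕ) (u : ℕ → ℕ) (j : ℕ) : ℝ := ∏ i ∈ range j, w m u i

/-- the set of the points `z_0 = 1, z_1, ..., z_k, 0` -/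
noncomputable def A (m k : ℕ) (u : ℕ → ℕ) : Finset ℝ := insert 0 ((range (k + 1)).image (z m u))

theorem w_nonneg (m : ℕ) (u : ℕ → ℕ) (i : ℕ) : 0 ≤ w m u i := by
  unfold w
  have h1 : ((min (u i) m : ℕ) : ℝ) ≤ m := by exact_mod_cast min_le_right _ _
  have h2 : ((min (u i) m : ℕ) : ℝ) / m ≤ 1 := div_le_one_of_le₀ h1 (by positivity)
  linarith

theorem w_le_one (m : ℕ) (u : ℕ → ℕ) (i : ℕ) : w m u i ≤ 1 := by
  unfold w
  have : 0 ≤ ((min (u i) m : ℕ) : ℝ) / m := by positivity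
  linarith

theorem w_zero {m : ℕ} {u : ℕ → ℕ} {i : ℕ} (h : u i = 0) : w m u i = 1 := by
  simp [w, h]

theorem w_top {m : ℕ} (hm : 0 < m) {u : ℕ → ℕ} {i : ℕ} (h : u i = m) : w m u i = 0 := by
  have : (m : ℝ) ≠ 0 := by exact_mod_cast hm.ne'
  simp [w, h, this]

theorem w_congr {m : ℕ} {u v : ℕ → ℕ} {i j : ℕ} (h : u i = v j) : w m u i = w m v j := by
  simp [w, h]

theorem z_zero (m : ℕ) (u : ℕ → ℕ) : z m u 0 = 1 := by simp [z]

theorem z_succ (m : ℕ) (u : ℕ → ℕ) (j : ℕ) : z m u (j + 1) = z m u j * w m u j := by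
  simp [z, prod_range_succ]

theorem z_nonneg (m : ℕ) (u : ℕ → ℕ) (j : ℕ) : 0 ≤ z m u j :=
  prod_nonneg fun i _ => w_nonneg m u i

theorem z_le_one (m : ℕ) (u : ℕ → ℕ) (j : ℕ) : z m u j ≤ 1 :=
  prod_le_one (fun i _ => w_nonneg m u i) fun i _ => w_le_one m u i

theorem z_anti (m : ℕ) (u : ℕ → ℕ) : Antitone (z m u) := by
  apply antitone_nat_of_succ_le
  intro j
  rw [z_succ]
  exact mul_le_of_le_one_right (z_nonneg _ _ _) (w_le_one _ _ _)

theorem z_ins_le (m i c : ℕ) (v : ℕ → ℕ) {j : ℕ} (h : j ≤ i) : z m (ins i c v) j = z m v j := by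
  unfold z
  apply prod_congr rfl
  intro a ha
  rw [mem_range] at ha
  exact w_congr (ins_lt _ _ (by omega))

theorem z_ins0_gt (m i : ℕ) (v : ℕ → ℕ) {j : ℕ} (h : i ≤ j) :
    z m (ins i 0 v) (j + 1) = z m v j := by
  induction j, h using Nat.le_induction with
  | base =>
    rw [z_succ, z_ins_le _ _ _ _ le_rfl, w_zero (ins_eq _ _ _), mul_one]
  | succ j hj ih =>
    rw [z_succ, ih, z_succ]
    congr 1
    exact w_congr (by rw [ins_gt _ _ (by omega)]; rfl)

theorem z_insTop_gt {m : ℕ} (hm : 0 < m) (i : ℕ) (v : ℕ → ℕ) {j : ℕ} (h : i < j) :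
    z m (ins i m v) j = 0 := by
  unfold z
  exact prod_eq_zero (mem_range.2 h) (w_top hm (ins_eq _ _ _))

theorem mem_A {m k : ℕ} {u : ℕ → ℕ} {t : ℝ} : t ∈ A m k u ↔ t = 0 ∨ ∃ j, j ≤ k ∧ z m u j = t := by
  simp [A, Nat.lt_succ_iff]

theorem A_ins0 (m K i : ℕ) (hi : i ≤ K) (v : ℕ → ℕ) : A m (K + 1) (ins i 0 v) = A m K v := by
  ext t
  rw [mem_A, mem_A]
  constructor
  · rintro (h | ⟨j, hj, h⟩)
    · exact Or.inl h
    · right
      rcases le_or_gt j i with h1 | h1
      · exact ⟨j, by omega, by rw [← h, z_ins_le _ _ _ _ h1]⟩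
      · obtain ⟨j', rfl⟩ : ∃ j', j = j' + 1 := ⟨j - 1, by omega⟩
        exact ⟨j', by omega, by rw [← h, z_ins0_gt _ _ _ (by omega)]⟩
  · rintro (h | ⟨j, hj, h⟩)
    · exact Or.inl h
    · right
      rcases le_or_gt j i with h1 | h1
      · exact ⟨j, by omega, by rw [← h, z_ins_le _ _ _ _ h1]⟩
      · exact ⟨j + 1, by omega, by rw [← h, z_ins0_gt _ _ _ (by omega)]⟩

theorem A_insTop {m : ℕ} (hm : 0 < m) (K : ℕ) (v : ℕ → ℕ) :
    A m (K + 1) (ins K m v) = A m K v := by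
  ext t
  rw [mem_A, mem_A]
  constructor
  · rintro (h | ⟨j, hj, h⟩)
    · exact Or.inl h
    · rcases le_or_gt j K with h1 | h1
      · exact Or.inr ⟨j, by omega, by rw [← h, z_ins_le _ _ _ _ h1]⟩
      · left
        rw [← h, z_insTop_gt hm _ _ h1]
  · rintro (h | ⟨j, hj, h⟩)
    · exact Or.inl h
    · exact Or.inr ⟨j, by omega, by rw [← h, z_ins_le _ _ _ _ hj]⟩

theorem card_A_le (m k : ℕ) (u : ℕ → ℕ) : (A m k u).card ≤ k + 2 := by
  unfold A
  refine (card_insert_le _ _).trans ?_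
  have := card_image_le (s := range (k + 1)) (f := z m u)
  rw [card_range] at this
  omega

theorem card_A_insTop {m : ℕ} (hm : 0 < m) (K i : ℕ) (hi : i < K) (v : ℕ → ℕ) :
    (A m (K + 1) (ins i m v)).card ≤ K + 1 := by
  have h : A m (K + 1) (ins i m v) ⊆ insert 0 ((range (i + 1)).image (z m (ins i m v))) := by
    intro t ht
    rw [mem_A] at ht
    rw [mem_insert, mem_image]
    rcases ht with h | ⟨j, hj, h⟩
    · exact Or.inl h
    · rcases le_or_gt j i with h1 | h1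
      · exact Or.inr ⟨j, mem_range.2 (by omega), h⟩
      · left
        rw [← h, z_insTop_gt hm _ _ h1]
  refine (card_le_card h).trans ((card_insert_le _ _).trans ?_)
  have := card_image_le (s := range (i + 1)) (f := z m (ins i m v))
  rw [card_range] at this
  omega

theorem zero_mem_A (m k : ℕ) (u : ℕ → ℕ) : (0 : ℝ) ∈ A m k u := mem_A.2 (Or.inl rfl)

theorem one_mem_A (m k : ℕ) (u : ℕ → ℕ) : (1 : ℝ) ∈ A m k u :=
  mem_A.2 (Or.inr ⟨0, by omega, z_zero _ _⟩)

theorem A_Icc {m k : ℕ} {u : ℕ → ℕ} {t : ℝ} (h : t ∈ A m k u) : 0 ≤ t ∧ t ≤ 1 := by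
  rw [mem_A] at h
  rcases h with rfl | ⟨j, -, rfl⟩
  · norm_num
  · exact ⟨z_nonneg _ _ _, z_le_one _ _ _⟩

/-- neighbouring grid points -/
def Nb (u v : ℕ → ℕ) : Prop := ∀ i, u i ≤ v i + 1 ∧ v i ≤ u i + 1

theorem w_close {m : ℕ} (hm : 0 < m) {u v : ℕ → ℕ} (h : Nb u v) (i : ℕ) :
    |w m u i - w m v i| ≤ 1 / m := by
  have hm' : (0 : ℝ) < m := by exact_mod_cast hm
  unfold w
  have e : (1 - ((min (u i) m : ℕ) : ℝ) / m) - (1 - ((min (v i) m : ℕ) : ℝ) / m) =
      (((min (v i) m : ℕ) : ℝ) - ((min (u i) m : ℕ) : ℝ)) / m := by ring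
  rw [e, abs_div, abs_of_pos hm']
  apply div_le_div_of_nonneg_right _ hm'.le
  obtain ⟨h1, h2⟩ := h i
  have h3 : min (u i) m ≤ min (v i) m + 1 := by omega
  have h4 : min (v i) m ≤ min (u i) m + 1 := by omega
  have h5 : ((min (u i) m : ℕ) : ℝ) ≤ ((min (v i) m : ℕ) : ℝ) + 1 := by exact_mod_cast h3
  have h6 : ((min (v i) m : ℕ) : ℝ) ≤ ((min (u i) m : ℕ) : ℝ) + 1 := by exact_mod_cast h4
  rw [abs_le]
  constructor <;> linarith

theorem z_close {m : ℕ} (hm : 0 < m) {u v : ℕ → ℕ} (h : Nb u v) (j : ℕ) :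
    |z m u j - z m v j| ≤ j / m := by
  have hm' : (0 : ℝ) < m := by exact_mod_cast hm
  induction j with
  | zero => simp [z_zero]
  | succ j ih =>
    rw [z_succ, z_succ]
    have e : z m u j * w m u j - z m v j * w m v j =
        (z m u j - z m v j) * w m u j + z m v j * (w m u j - w m v j) := by ring
    rw [e]
    refine (abs_add_le _ _).trans ?_
    rw [abs_mul, abs_mul, abs_of_nonneg (w_nonneg m u j), abs_of_nonneg (z_nonneg m v j)]
    have h1 : |z m u j - z m v j| * w m u j ≤ j / m :=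
      (mul_le_of_le_one_right (abs_nonneg _) (w_le_one _ _ _)).trans ih
    have h2 : z m v j * |w m u j - w m v j| ≤ 1 / m :=
      (mul_le_of_le_one_left (abs_nonneg _) (z_le_one _ _ _)).trans (w_close hm h j)
    push_cast
    rw [add_div]
    linarith

/-- every point of `T` is within `δ` of a point of `S` -/
def Cl (δ : ℝ) (T S : Finset ℝ) : Prop := ∀ t ∈ T, ∃ s ∈ S, |t - s| ≤ δ

theorem A_close {m : ℕ} (hm : 0 < m) {u v : ℕ → ℕ} (h : Nb u v) (k : ℕ) :
    Cl (k / m) (A m k u) (A m k v) := by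
  have hm' : (0 : ℝ) < m := by exact_mod_cast hm
  intro t ht
  rw [mem_A] at ht
  rcases ht with rfl | ⟨j, hj, rfl⟩
  · exact ⟨0, zero_mem_A _ _ _, by simp; positivity⟩
  · refine ⟨z m v j, mem_A.2 (Or.inr ⟨j, hj, rfl⟩), (z_close hm h j).trans ?_⟩
    apply div_le_div_of_nonneg_right _ hm'.le
    exact_mod_cast hj

/-! ### labels -/

/-- `T` has a point close to each of the points `c / k`, `c ≤ k` -/
def Near (k : ℕ) (T : Finset ℝ) : Prop := ∀ c : ℕ, c ≤ k → ∃ t ∈ T, |t - c / k| < 1 / (8 * k)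

theorem grid_eq {k c d : ℕ} (hk : 0 < k) {t : ℝ} {r s : ℝ} (h1 : |t - c / k| < r)
    (h2 : |t - d / k| < s) (h : r + s ≤ 1 / k) : c = d := by
  have hk' : (0 : ℝ) < k := by exact_mod_cast hk
  have h3 : |(c : ℝ) / k - d / k| < 1 / k := by
    have := abs_sub_le ((c : ℝ) / k) t (d / k)
    rw [abs_sub_comm ((c : ℝ) / k) t] at this
    linarith
  rw [← sub_div, abs_div, abs_of_pos hk', div_lt_div_iff_of_pos_right hk'] at h3
  have h4 : |((c : ℤ) - (d : ℤ) : ℤ)| < 1 := by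
    have : ((|((c : ℤ) - (d : ℤ) : ℤ)| : ℤ) : ℝ) < 1 := by
      push_cast
      exact h3
    exact_mod_cast this
  rw [Int.abs_lt_one_iff] at h4
  omega

theorem near_card {k : ℕ} (hk : 0 < k) {T : Finset ℝ} (h : Near k T) : k + 1 ≤ T.card := by
  have hk' : (0 : ℝ) < k := by exact_mod_cast hk
  choose! τ hτ1 hτ2 using h
  have h1 : ((range (k + 1)).image τ).card = k + 1 := by
    rw [card_image_of_injOn, card_range]
    intro c hc d hd hcd
    rw [coe_range, Set.mem_Iio] at hc hd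
    refine grid_eq hk (hτ2 c (by omega)) (?_ : |τ c - d / k| < 1 / (8 * k)) ?_
    · rw [show τ c = τ d from hcd]
      exact hτ2 d (by omega)
    · have : (1 : ℝ) / (8 * k) + 1 / (8 * k) = (1 / 4) * (1 / k) := by
        field_simp; norm_num
      rw [this]
      have : 0 < (1 : ℝ) / k := by positivity
      linarith
  rw [← h1]
  apply card_le_card
  intro t ht
  rw [mem_image] at ht
  obtain ⟨c, hc, rfl⟩ := ht
  rw [mem_range] at hc
  exact hτ1 c (by omega)

theorem near_unique {k : ℕ} (hk : 0 < k) {T : Finset ℝ} (h : Near k T) (hT : T.card ≤ k + 1)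
    {c : ℕ} {s t : ℝ} (hs : s ∈ T) (ht : t ∈ T) (hs' : |s - c / k| < 1 / (4 * k))
    (ht' : |t - c / k| < 1 / (4 * k)) : s = t := by
  have hk' : (0 : ℝ) < k := by exact_mod_cast hk
  choose! τ hτ1 hτ2 using h
  have h1 : ((range (k + 1)).image τ).card = k + 1 := by
    rw [card_image_of_injOn, card_range]
    intro c hc d hd hcd
    rw [coe_range, Set.mem_Iio] at hc hd
    refine grid_eq hk (hτ2 c (by omega)) (?_ : |τ c - d / k| < 1 / (8 * k)) ?_
    · rw [show τ c = τ d from hcd]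
      exact hτ2 d (by omega)
    · have : (1 : ℝ) / (8 * k) + 1 / (8 * k) = (1 / 4) * (1 / k) := by
        field_simp; norm_num
      rw [this]
      have : 0 < (1 : ℝ) / k := by positivity
      linarith
  have h2 : (range (k + 1)).image τ = T := by
    apply eq_of_subset_of_card_le
    · intro t ht
      rw [mem_image] at ht
      obtain ⟨c, hc, rfl⟩ := ht
      rw [mem_range] at hc
      exact hτ1 c (by omega)
    · omega
  have h3 : (1 : ℝ) / (8 * k) + 1 / (4 * k) ≤ 1 / k := by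
    have : (1 : ℝ) / (8 * k) + 1 / (4 * k) = (3 / 8) * (1 / k) := by
      field_simp; norm_num
    rw [this]
    have : 0 < (1 : ℝ) / k := by positivity
    linarith
  have h4 : ∀ x ∈ T, |x - c / k| < 1 / (4 * k) → x = τ c := by
    intro x hx hx'
    rw [← h2, mem_image] at hx
    obtain ⟨d, hd, rfl⟩ := hx
    rw [mem_range] at hd
    rw [grid_eq hk (hτ2 d (by omega)) hx' h3]
  rw [h4 s hs hs', h4 t ht ht']

/-- `T` has a point close to `c / k` which is at most `c / k` -/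
def D (k c : ℕ) (T : Finset ℝ) : Prop := ∃ t ∈ T, |t - c / k| < 1 / (8 * k) ∧ t ≤ c / k

open Classical in
/-- the label -/
noncomputable def lab (K : ℕ) (T : Finset ℝ) : ℕ :=
  if Near (K + 1) T then sInf {j | D (K + 1) (K - j) T} else K + 1

theorem lab_not {K : ℕ} {T : Finset ℝ} (h : ¬ Near (K + 1) T) : lab K T = K + 1 := by
  simp [lab, h]

theorem D_zero {k : ℕ} (hk : 0 < k) {T : Finset ℝ} (h : (0 : ℝ) ∈ T) : D k 0 T := by
  have hk' : (0 : ℝ) < k := by exact_mod_cast hk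
  exact ⟨0, h, by simp; positivity, by simp⟩

theorem lab_near {K : ℕ} {T : Finset ℝ} (h : Near (K + 1) T) (h0 : (0 : ℝ) ∈ T) :
    lab K T ≤ K ∧ D (K + 1) (K - lab K T) T ∧ ∀ j < lab K T, ¬ D (K + 1) (K - j) T := by
  have e : lab K T = sInf {j | D (K + 1) (K - j) T} := by simp [lab, h]
  have hK : K ∈ {j | D (K + 1) (K - j) T} := by
    simp only [Set.mem_setOf_eq, Nat.sub_self]
    exact D_zero (by omega) h0
  rw [e]
  refine ⟨Nat.sInf_le hK, ?_, ?_⟩
  · exact Nat.sInf_mem (s := {j | D (K + 1) (K - j) T}) ⟨K, hK⟩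
  · intro j hj
    exact Nat.notMem_of_lt_sInf hj

theorem lab_le {K : ℕ} {T : Finset ℝ} (h0 : (0 : ℝ) ∈ T) : lab K T ≤ K + 1 := by
  by_cases h : Near (K + 1) T
  · exact (lab_near h h0).1.trans (by omega)
  · rw [lab_not h]

/-- No small family carries all the labels. -/
theorem no_full {K : ℕ} {δ : ℝ} (hδ : δ ≤ 1 / (32 * (K + 1 : ℕ))) (T : ℕ → Finset ℝ)
    (hc : ∀ a ≤ K + 1, (T a).card ≤ K + 2) (h0 : ∀ a ≤ K + 1, (0 : ℝ) ∈ T a)
    (h1 : ∀ a ≤ K + 1, (1 : ℝ) ∈ T a)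
    (hcl : ∀ a ≤ K + 1, ∀ b ≤ K + 1, Cl δ (T a) (T b)) (hl : ∀ a ≤ K + 1, lab K (T a) = a) :
    False := by
  have hk' : (0 : ℝ) < (K + 1 : ℕ) := by positivity
  set k : ℕ := K + 1 with hk
  have hnear : ∀ a ≤ K, Near k (T a) := by
    intro a ha
    by_contra h
    have := hl a (by omega)
    rw [lab_not h] at this
    omega
  have hr : (1 : ℝ) / (32 * k) = (1 / 4) * (1 / (8 * k)) := by field_simp; norm_num
  have hr4 : (1 : ℝ) / (4 * k) = 2 * (1 / (8 * k)) := by field_simp; norm_num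
  have hrpos : (0 : ℝ) < 1 / (8 * k) := by positivity
  have key : Near k (T k) := by
    intro c hck
    rcases Nat.eq_zero_or_pos c with rfl | hc0
    · exact ⟨0, h0 k le_rfl, by simp; positivity⟩
    rcases Nat.lt_or_ge c k with hck' | hck'
    swap
    · have : c = k := by omega
      subst this
      exact ⟨1, h1 k le_rfl, by rw [div_self hk'.ne']; simpa using hk'⟩
    -- `1 ≤ c ≤ K`
    obtain ⟨-, a2, a3⟩ := lab_near (hnear K le_rfl) (h0 K (by omega))
    rw [hl K (by omega)] at a2 a3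
    obtain ⟨-, b2, -⟩ := lab_near (hnear (K - c) (by omega)) (h0 (K - c) (by omega))
    rw [hl (K - c) (by omega), show K - (K - c) = c by omega] at b2
    obtain ⟨s, hs1, hs2, hs3⟩ := b2
    have a4 := a3 (K - c) (by omega)
    rw [show K - (K - c) = c by omega] at a4
    obtain ⟨t, ht1, ht2⟩ := hnear K le_rfl c hck
    have ht3 : (c : ℝ) / k < t := by
      by_contra h
      exact a4 ⟨t, ht1, ht2, not_lt.1 h⟩
    obtain ⟨t', ht'1, ht'2⟩ := hcl (K - c) (by omega) K (by omega) s hs1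
    have ht'3 : |t' - c / k| < 1 / (4 * k) := by
      have := abs_sub_le t' s ((c : ℝ) / k)
      rw [abs_sub_comm t' s] at this
      rw [hr4]
      rw [hr] at hδ
      linarith
    have ht4 : |t - c / k| < 1 / (4 * k) := by rw [hr4]; linarith
    have e : t' = t := near_unique (by omega) (hnear K le_rfl) (hc K (by omega)) ht'1 ht1 ht'3 ht4
    rw [e] at ht'2
    have ht5 : |t - c / k| ≤ δ := by
      rw [abs_le] at ht'2 ⊢
      constructor <;> linarith
    obtain ⟨s', hs'1, hs'2⟩ := hcl K (by omega) k le_rfl t ht1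
    refine ⟨s', hs'1, ?_⟩
    have := abs_sub_le s' t ((c : ℝ) / k)
    rw [abs_sub_comm s' t] at this
    rw [hr] at hδ
    linarith
  have := (lab_near key (h0 k le_rfl)).1
  rw [hl k le_rfl] at this
  omega

end Pool.Agent.X33.HR
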