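import Pool.Agent.X33.HR.Geo

set_option autoImplicit false

/-!
Affine normalisation of finite subsets of the line.
-/

namespace Pool.Agent.X33.HR

open Finset

/-- the affine image with least element `0` and largest element `1` -/
noncomputable def N (T : Finset ℝ) : Finset ℝ :=
  T.image (fun x => (x - sInf (T : Set ℝ)) / (sSup (T : Set ℝ) - sInf (T : Set ℝ)))

theorem inf_mem {T : Finset ℝ} (hT : T.Nonempty) : sInf (T : Set ℝ) ∈ T := by
  exact_mod_cast Finset.Nonempty.csInf_mem hT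

theorem sup_mem {T : Finset ℝ} (hT : T.Nonempty) : sSup (T : Set ℝ) ∈ T := by
  exact_mod_cast Finset.Nonempty.csSup_mem hT

theorem inf_le {T : Finset ℝ} {x : ℝ} (hx : x ∈ T) : sInf (T : Set ℝ) ≤ x :=
  csInf_le T.bddBelow (by exact_mod_cast hx)

theorem le_sup {T : Finset ℝ} {x : ℝ} (hx : x ∈ T) : x ≤ sSup (T : Set ℝ) :=
  le_csSup T.bddAbove (by exact_mod_cast hx)

theorem inf_close {T S : Finset ℝ} {η : ℝ} (hT : T.Nonempty) (h : Cl η T S) :
    sInf (S : Set ℝ) ≤ sInf (T : Set ℝ) + η := by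
  obtain ⟨s, hs, hs'⟩ := h _ (inf_mem hT)
  have := inf_le hs
  rw [abs_le] at hs'
  linarith [hs'.1, hs'.2]

theorem sup_close {T S : Finset ℝ} {η : ℝ} (hT : T.Nonempty) (h : Cl η T S) :
    sSup (T : Set ℝ) ≤ sSup (S : Set ℝ) + η := by
  obtain ⟨s, hs, hs'⟩ := h _ (sup_mem hT)
  have := le_sup hs
  rw [abs_le] at hs'
  linarith [hs'.1, hs'.2]

theorem N_close {T S : Finset ℝ} {η : ℝ} (hη : 0 ≤ η) (hT : T.Nonempty) (hS : S.Nonempty)
    (h : Cl η T S) (h' : Cl η S T) (h1 : 1 / 2 ≤ sSup (T : Set ℝ) - sInf (T : Set ℝ))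
    (h2 : 1 / 2 ≤ sSup (S : Set ℝ) - sInf (S : Set ℝ)) : Cl (8 * η) (N T) (N S) := by
  have i1 := inf_close hT h
  have i2 := inf_close hS h'
  have i3 := sup_close hT h
  have i4 := sup_close hS h'
  intro x hx
  unfold N at hx
  rw [mem_image] at hx
  obtain ⟨t, ht, rfl⟩ := hx
  obtain ⟨s, hs, hs'⟩ := h t ht
  refine ⟨_, mem_image_of_mem _ hs, ?_⟩
  have j1 := inf_le ht
  have j2 := le_sup ht
  set a := sInf (T : Set ℝ)
  set b := sSup (T : Set ℝ)
  set a' := sInf (S : Set ℝ)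
  set b' := sSup (S : Set ℝ)
  have hB : 0 < b - a := by linarith
  have hB' : 0 < b' - a' := by linarith
  rw [abs_le] at hs'
  have e : (t - a) / (b - a) - (s - a') / (b' - a') =
      ((t - a) - (s - a')) / (b' - a') + (t - a) / (b - a) * (((b' - a') - (b - a)) / (b' - a')) := by
    field_simp
    ring
  rw [e]
  refine (abs_add_le _ _).trans ?_
  have k1 : |((t - a) - (s - a')) / (b' - a')| ≤ 4 * η := by
    rw [abs_div, abs_of_pos hB', div_le_iff₀ hB']
    have : |(t - a) - (s - a')| ≤ 2 * η := by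
      rw [abs_le]; constructor <;> linarith [hs'.1, hs'.2]
    nlinarith
  have k2 : |(t - a) / (b - a) * (((b' - a') - (b - a)) / (b' - a'))| ≤ 4 * η := by
    rw [abs_mul]
    have l1 : |(t - a) / (b - a)| ≤ 1 := by
      rw [abs_of_nonneg (div_nonneg (by linarith) hB.le), div_le_one hB]
      linarith
    have l2 : |((b' - a') - (b - a)) / (b' - a')| ≤ 4 * η := by
      rw [abs_div, abs_of_pos hB', div_le_iff₀ hB']
      have : |(b' - a') - (b - a)| ≤ 2 * η := by
        rw [abs_le]; constructor <;> linarith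
      nlinarith
    calc |(t - a) / (b - a)| * |((b' - a') - (b - a)) / (b' - a')| ≤ 1 * (4 * η) :=
          mul_le_mul l1 l2 (abs_nonneg _) zero_le_one
      _ = 4 * η := one_mul _
  linarith

theorem N_id {T : Finset ℝ} (h0 : (0 : ℝ) ∈ T) (h1 : (1 : ℝ) ∈ T) (h : ∀ t ∈ T, 0 ≤ t ∧ t ≤ 1) :
    N T = T := by
  have hT : T.Nonempty := ⟨0, h0⟩
  have e0 : sInf (T : Set ℝ) = 0 := le_antisymm (inf_le h0) (h _ (inf_mem hT)).1
  have e1 : sSup (T : Set ℝ) = 1 := le_antisymm (h _ (sup_mem hT)).2 (le_sup h1)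
  unfold N
  rw [e0, e1]
  simp

theorem N_card (T : Finset ℝ) : (N T).card ≤ T.card := card_image_le

theorem N_zero {T : Finset ℝ} (hT : T.Nonempty) : (0 : ℝ) ∈ N T := by
  unfold N
  rw [mem_image]
  exact ⟨_, inf_mem hT, by simp⟩

theorem N_one {T : Finset ℝ} (hT : T.Nonempty)
    (h : 1 / 2 ≤ sSup (T : Set ℝ) - sInf (T : Set ℝ)) : (1 : ℝ) ∈ N T := by
  unfold N
  rw [mem_image]
  refine ⟨_, sup_mem hT, div_self ?_⟩
  intro h0
  rw [h0] at h
  norm_num at h

/-! ### Hausdorff distance of finite sets -/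

theorem fin_hd {s t : Finset ℝ} (hs : s.Nonempty) (ht : t.Nonempty) :
    Metric.hausdorffEDist (s : Set ℝ) (t : Set ℝ) ≠ ⊤ :=
  Metric.hausdorffEDist_ne_top_of_nonempty_of_bounded hs ht s.finite_toSet.isBounded
    t.finite_toSet.isBounded

theorem Cl_of_lt {s t : Finset ℝ} (hs : s.Nonempty) (ht : t.Nonempty) {η : ℝ}
    (h : Metric.hausdorffDist (s : Set ℝ) (t : Set ℝ) < η) : Cl η s t := by
  intro x hx
  obtain ⟨y, hy, hxy⟩ := Metric.exists_dist_lt_of_hausdorffDist_lt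
    (show x ∈ (s : Set ℝ) by exact_mod_cast hx) h (fin_hd hs ht)
  exact ⟨y, by exact_mod_cast hy, by rw [← Real.dist_eq]; exact hxy.le⟩

theorem le_of_Cl {s t : Finset ℝ} {η : ℝ} (hη : 0 ≤ η) (h : Cl η s t) (h' : Cl η t s) :
    Metric.hausdorffDist (s : Set ℝ) (t : Set ℝ) ≤ η := by
  apply Metric.hausdorffDist_le_of_mem_dist hη
  · intro x hx
    obtain ⟨y, hy, hxy⟩ := h x (by exact_mod_cast hx)
    exact ⟨y, by exact_mod_cast hy, by rw [Real.dist_eq]; exact hxy⟩
  · intro x hx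
    obtain ⟨y, hy, hxy⟩ := h' x (by exact_mod_cast hx)
    exact ⟨y, by exact_mod_cast hy, by rw [Real.dist_eq]; exact hxy⟩

/-- a set of `k + 2` points of `[0,1]` is within `1 / k` of a set with one point less -/
theorem exists_smaller {k : ℕ} (hk : 0 < k) {T : Finset ℝ} (hT : T.card = k + 2)
    (h : ∀ t ∈ T, 0 ≤ t ∧ t ≤ 1) : ∃ S : Finset ℝ, S.Nonempty ∧ S.card = k + 1 ∧
      Cl (1 / k) T S ∧ Cl (1 / k) S T := by
  have hk' : (0 : ℝ) < k := by exact_mod_cast hk
  have h1 : (range (k + 1)).card < T.card := by rw [card_range]; omega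
  obtain ⟨x, hx, y, hy, hxy, e⟩ := exists_ne_map_eq_of_card_lt_of_maps_to h1
    (f := fun t : ℝ => ⌊t * k⌋₊) (fun t ht => by
      obtain ⟨a1, a2⟩ := h t ht
      simp only [coe_range, Set.mem_Iio]
      rw [Nat.floor_lt (by positivity)]
      push_cast
      nlinarith)
  have hc : (T.erase x).card = k + 1 := by
    rw [card_erase_of_mem hx, hT]; omega
  refine ⟨T.erase x, card_pos.1 (by omega), hc, ?_, ?_⟩
  · intro t ht
    by_cases hxt : t = x
    · subst hxt
      refine ⟨y, mem_erase.2 ⟨hxy.symm, hy⟩, ?_⟩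
      have a1 := Nat.floor_le (show 0 ≤ t * k from mul_nonneg (h t ht).1 hk'.le)
      have a2 := Nat.lt_floor_add_one (t * k)
      have b1 := Nat.floor_le (show 0 ≤ y * k from mul_nonneg (h y hy).1 hk'.le)
      have b2 := Nat.lt_floor_add_one (y * k)
      rw [show ⌊t * (k : ℝ)⌋₊ = ⌊y * (k : ℝ)⌋₊ from e] at a1 a2
      have : |t * k - y * k| ≤ 1 := by
        rw [abs_le]; constructor <;> linarith
      rw [← sub_mul, abs_mul, abs_of_pos hk'] at this
      rw [le_div_iff₀ hk']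
      exact this
    · exact ⟨t, mem_erase.2 ⟨hxt, ht⟩, by simp⟩
  · intro t ht
    exact ⟨t, mem_of_mem_erase ht, by simp⟩

end Pool.Agent.X33.HR
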