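import Pool.Agent.Helper475.Kuhn

set_option autoImplicit false

/-!
Full Stokes formula (mod 2) for the standard triangulation of the grid `[0,m]^k`: the sum of a
coboundary is the sum over the `2 k` facets.
-/

namespace Pool.Agent.X33.HR

open Pool.Agent.Helper475.Kuhn

/-- insert the value `c` as the coordinate `i` -/
def ins (i c : ℕ) (v : ℕ → ℕ) : ℕ → ℕ :=
  fun j => if j < i then v j else if j = i then c else v (j - 1)

theorem ins_lt {i j : ℕ} (c : ℕ) (v : ℕ → ℕ) (h : j < i) : ins i c v j = v j := by
  simp [ins, h]

theorem ins_eq (i c : ℕ) (v : ℕ → ℕ) : ins i c v i = c := by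
  simp [ins]

theorem ins_gt {i j : ℕ} (c : ℕ) (v : ℕ → ℕ) (h : i < j) : ins i c v j = v (j - 1) := by
  have h1 : ¬ j < i := by omega
  have h2 : j ≠ i := by omega
  simp [ins, h1, h2]

theorem ins_update {i k : ℕ} (c t : ℕ) (v : ℕ → ℕ) (h : i ≤ k) :
    ins i c (Function.update v k t) = Function.update (ins i c v) (k + 1) t := by
  funext j
  by_cases hj : j = k + 1
  · subst hj
    rw [ins_gt _ _ (by omega)]
    simp
  · rw [Function.update_of_ne hj]
    rcases lt_trichotomy j i with h1 | h1 | h1
    · rw [ins_lt _ _ h1, ins_lt _ _ h1, Function.update_of_ne (by omega)]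
    · subst h1
      rw [ins_eq, ins_eq]
    · rw [ins_gt _ _ h1, ins_gt _ _ h1, Function.update_of_ne (by omega)]

theorem prism_comm {V W V' W' : Type*} (b t : V → W) (b' t' : V' → W') (f : V' → V) (g : W' → W)
    (hb : ∀ v, b (f v) = g (b' v)) (ht : ∀ v, t (f v) = g (t' v)) (l : List V')
    (φ : List W → ZMod 2) :
    prism b t (l.map f) φ = prism b' t' l (fun l' => φ (l'.map g)) := by
  induction l generalizing φ with
  | nil => rfl
  | cons v l ih =>
    simp only [List.map_cons, prism]
    rw [ih, hb, ht]
    congr 2
    simp only [List.map_map, List.cons.injEq, true_and]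
    apply List.map_congr_left
    intro x _
    exact ht x

theorem grid_congr (m : ℕ) (p : ℕ → ℕ) (k : ℕ) (φ ψ : List (ℕ → ℕ) → ZMod 2)
    (h : ∀ l, (∀ v ∈ l, ∀ i, k ≤ i → v i = p i) → φ l = ψ l) :
    grid m p k φ = grid m p k ψ := by
  by_contra hne
  have h1 : grid m p k (fun l => φ l + ψ l) ≠ 0 := by
    rw [grid_add]
    intro h2
    apply hne
    have h3 := two_eq (grid m p k ψ)
    linear_combination h2 - h3
  obtain ⟨l, h2, x, hx, h3⟩ := grid_supp m p k _ h1
  apply h2
  rw [h l (fun v hv => (h3 v hv).2)]
  exact two_eq _

theorem grid_sum {ι : Type*} (s : Finset ι) (m : ℕ) (p : ℕ → ℕ) (k : ℕ)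
    (φ : ι → List (ℕ → ℕ) → ZMod 2) :
    grid m p k (fun l => ∑ i ∈ s, φ i l) = ∑ i ∈ s, grid m p k (φ i) := by
  classical
  induction s using Finset.induction_on with
  | empty => simpa using grid_zero m p k (fun _ => 0) (fun _ => rfl)
  | insert a s ha ih =>
    simp only [Finset.sum_insert ha]
    rw [grid_add, ih]

/-- **Stokes.** -/
theorem stokes (m k : ℕ) (φ : List (ℕ → ℕ) → ZMod 2) :
    grid m (fun _ => 0) (k + 1) (fun l => del l φ) =
      ∑ i ∈ Finset.range (k + 1),
        (grid m (fun _ => 0) k (fun l => φ (l.map (ins i m))) +
          grid m (fun _ => 0) k (fun l => φ (l.map (ins i 0)))) := by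
  induction k generalizing φ with
  | zero =>
    rw [grid_del]
    simp only [Finset.range_one, Finset.sum_singleton, zero_add]
    have e : ∀ c, grid m (fun _ => 0) 0 (fun l => φ (l.map (fun v => Function.update v 0 c))) =
        grid m (fun _ => 0) 0 (fun l => φ (l.map (ins 0 c))) := by
      intro c
      simp only [grid, List.map_cons, List.map_nil]
      congr 2
      funext j
      by_cases hj : j = 0
      · subst hj; simp [ins]
      · rw [Function.update_of_ne hj, ins_gt _ _ (by omega)]
    rw [e, e]
    have : ∀ t, grid m (fun _ => 0) 0 (fun l => del l (fun l' =>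
        prism (fun v => Function.update v 0 t) (fun v => Function.update v 0 (t + 1)) l' φ)) = 0 := by
      intro t
      simp [grid, del, prism]
    rw [Finset.sum_eq_zero (fun t _ => this t)]
    ring
  | succ k ih =>
    rw [grid_del]
    have e : ∀ c, grid m (fun _ => 0) (k + 1)
        (fun l => φ (l.map (fun v => Function.update v (k + 1) c))) =
        grid m (fun _ => 0) (k + 1) (fun l => φ (l.map (ins (k + 1) c))) := by
      intro c
      apply grid_congr
      intro l hl
      congr 1
      apply List.map_congr_left
      intro v hv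
      funext j
      rcases lt_trichotomy j (k + 1) with h | h | h
      · rw [Function.update_of_ne (by omega), ins_lt _ _ h]
      · subst h; simp [ins]
      · rw [Function.update_of_ne (by omega), ins_gt _ _ h, hl v hv j (by omega),
          hl v hv (j - 1) (by omega)]
    rw [e, e, Finset.sum_range_succ, add_assoc]
    congr 1
    -- the inner facets
    have f1 : ∀ t, grid m (fun _ => 0) (k + 1) (fun l => del l (fun l' =>
        prism (fun v => Function.update v (k + 1) t) (fun v => Function.update v (k + 1) (t + 1))
          l' φ)) = ∑ i ∈ Finset.range (k + 1),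
        (grid m (fun _ => 0) k (fun l => prism (fun v => Function.update v k t)
            (fun v => Function.update v k (t + 1)) l (fun l' => φ (l'.map (ins i m)))) +
          grid m (fun _ => 0) k (fun l => prism (fun v => Function.update v k t)
            (fun v => Function.update v k (t + 1)) l (fun l' => φ (l'.map (ins i 0))))) := by
      intro t
      rw [ih]
      refine Finset.sum_congr rfl (fun i hi => ?_)
      rw [Finset.mem_range] at hi
      have g : ∀ c, (fun l => prism (fun v => Function.update v (k + 1) t)
          (fun v => Function.update v (k + 1) (t + 1)) (List.map (ins i c) l) φ) =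
          fun l => prism (fun v => Function.update v k t)
            (fun v => Function.update v k (t + 1)) l (fun l' => φ (l'.map (ins i c))) := by
        intro c
        funext l
        apply prism_comm
        · intro v; rw [ins_update _ _ _ (by omega)]
        · intro v; rw [ins_update _ _ _ (by omega)]
      rw [g, g]
    rw [Finset.sum_congr rfl (fun t _ => f1 t), Finset.sum_comm]
    refine Finset.sum_congr rfl (fun i _ => ?_)
    rw [Finset.sum_add_distrib]
    rfl

end Pool.Agent.X33.HR
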